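import Pool.Agent.helper37.F2.Spec2

/-! Row T0 of the trees part (MP_26dbae_co). -/

set_option autoImplicit false

namespace Pool.Agent.F2T

open Pool.Agent.helper23.TH Pool.Agent.F2

theorem T0 (hSTAR : STAR_stmt) : T0_stmt := by
  classical
  refine ⟨starT, ?_, ?_, ?_, ?_, ?_⟩
  · intro S
    have hE : Fintype.card starT.E = 1 := rfl
    have hI : Fintype.card starT.I = 1 := rfl
    rw [hE, hI, one_mul, one_mul]
    rcases S.eq_empty_or_nonempty with rfl | ⟨x, hx⟩
    · simp
    · have h1 : S.card ≤ 1 := by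
        have := Finset.card_le_univ S
        rwa [hI] at this
      refine h1.trans ?_
      unfold RT.es
      rw [Nat.one_le_iff_ne_zero, ← Nat.pos_iff_ne_zero, Finset.card_pos]
      obtain ⟨e⟩ : Nonempty starT.E := ⟨(() : Unit)⟩
      refine ⟨e, Finset.mem_filter.2 ⟨Finset.mem_univ _, x, hx, Or.inr ?_⟩⟩
      rfl
  · exact le_refl 1
  · exact le_refl 1
  · have hE : Fintype.card starT.E = 1 := rfl
    have hI : Fintype.card starT.I = 1 := rfl
    rw [hE, hI]
    norm_num
  · intro p _
    have := hSTAR p
    simpa using this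

end Pool.Agent.F2T
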